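import Pool.Agent.H57.Lang.Engine

/-!
# Polynomials without constant term over a filtered field
-/

set_option autoImplicit false

namespace Pool.Agent.H57.Lang

open Polynomial Pool.Agent.Helper716_Lang

section Level

open Filter Topology

theorem exists_level' {I J : Type*} [Fintype I] [Fintype J] (n c M : ℕ) (hM : n = 0 → M = 0)
    (w : I → ℕ) (d : J → ℕ) (h : ∑ j, d j ^ n < ∑ i, w i ^ n) :
    ∃ k : ℕ, ∑ j, (d j * (k + c) + 1) ^ n + M < ∑ i, (w i * k + 1) ^ n := by
  have h1 : Tendsto (fun k : ℕ => ∑ j, ((d j * k + (d j * c + 1) : ℕ) : ℝ) ^ n / (k : ℝ) ^ n) atTop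
      (𝓝 (∑ j, (d j : ℝ) ^ n)) := tendsto_finsetSum _ fun j _ => tendsto_ratio _ _ _
  have h0 : Tendsto (fun k : ℕ => (M : ℝ) / (k : ℝ) ^ n) atTop (𝓝 0) := by
    rcases Nat.eq_zero_or_pos n with hn | hn
    · rw [hM hn]
      simp
    · have h5 : Tendsto (fun k : ℕ => (k : ℝ) ^ n) atTop atTop :=
        (tendsto_pow_atTop hn.ne').comp tendsto_natCast_atTop_atTop
      exact h5.const_div_atTop (M : ℝ)
  have h1' := h1.add h0
  rw [add_zero] at h1'
  have h2 : Tendsto (fun k : ℕ => ∑ i, ((w i * k + 1 : ℕ) : ℝ) ^ n / (k : ℝ) ^ n) atTop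
      (𝓝 (∑ i, (w i : ℝ) ^ n)) := tendsto_finsetSum _ fun j _ => tendsto_ratio _ _ _
  have h3 : (∑ j, (d j : ℝ) ^ n) < ∑ i, (w i : ℝ) ^ n := by exact_mod_cast h
  obtain ⟨k, hk, hk0⟩ := ((h1'.eventually_lt h2 h3).and (eventually_gt_atTop 0)).exists
  refine ⟨k, ?_⟩
  rw [← Finset.sum_div, ← Finset.sum_div, ← add_div] at hk
  have hk1 : (0 : ℝ) < (k : ℝ) ^ n := by positivity
  rw [div_lt_div_iff_of_pos_right hk1] at hk
  have h4 : ∀ j, d j * (k + c) + 1 = d j * k + (d j * c + 1) := fun j => by ring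
  simp only [h4]
  exact_mod_cast hk

end Level

section

variable {R K : Type*} [Field R] [Field K] [Algebra R K] {n : ℕ}

theorem coeffIn_kline_le (Fl : Filt R K n) {σ : Type*} (w : σ → ℕ) (hw : ∀ i, 0 < w i) (k : ℕ)
    (a z : σ → K) (ha : ∀ i, a i ∈ Fl.A (w i * k)) (hz : ∀ i, z i ∈ Fl.A (w i * k))
    (f : MvPolynomial σ K) (d : ℕ) (hf : ∀ α ∈ f.support, Finsupp.weight w α ≤ d)
    (hc : ∀ α, f.coeff α ∈ Fl.A Fl.c) :
    CoeffIn (Fl.A (Fl.c + d * (k + Fl.c))) (kline f a z) := by
  intro e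
  rw [kline, MvPolynomial.aeval_def, MvPolynomial.eval₂_eq, finsetSum_coeff]
  refine Submodule.sum_mem _ fun α hα => ?_
  have hd : Finsupp.weight w α ≤ d := hf α hα
  have h1 : CoeffIn (Fl.A Fl.c) (C (f.coeff α)) := by
    intro e
    rw [coeff_C]
    split_ifs
    · exact hc α
    · exact Submodule.zero_mem _
  have h2 := coeffIn_monomial Fl w hw k a z ha hz α _ _ h1 e
  exact Fl.mono (Nat.add_le_add_left (Nat.mul_le_mul_right _ hd) _) h2

end

section

variable {R K : Type*} [Field R] [LinearOrder R] [IsStrictOrderedRing R] [Field K] [Algebra R K]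
  {n : ℕ}

/-- There is a finite dimensional `R`-space `V ≠ 0` in `K ^ I`, on which the `R`-linear functionals
`ℓ μ` vanish, such that there is a common zero on every ellipsoid around `v₀` in `v₀ + V`: for every
basis `e` of `V` and `r > 0` there is a common zero `v₀ + ∑ s_m e_m` with `∑ s_m ^ 2 = r`. -/
def OnEllipsoids (R : Type*) {K : Type*} [Field R] [LinearOrder R] [Field K] [Algebra R K]
    {I J : Type*} (f : J → MvPolynomial I K) (v₀ : I → K) {M : ℕ}
    (ℓ : Fin M → (I → K) →ₗ[R] R) : Prop :=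
  ∃ V : Submodule R (I → K), FiniteDimensional R V ∧ V ≠ ⊥ ∧ (∀ v ∈ V, ∀ μ, ℓ μ v = 0) ∧
    ∀ (ι : Type) [Fintype ι] (e : Module.Basis ι R V) (r : R), 0 < r → ∃ s : ι → R,
      ∑ m, s m ^ 2 = r ∧
        ∀ j, MvPolynomial.eval (v₀ + ∑ m, s m • (e m : I → K)) (f j) = 0

theorem OnEllipsoids.infinite {I J : Type*} {f : J → MvPolynomial I K} {v₀ : I → K} {M : ℕ}
    {ℓ : Fin M → (I → K) →ₗ[R] R} (h : OnEllipsoids R f v₀ ℓ) :
    {v : I → K | (∀ j, MvPolynomial.eval v (f j) = 0) ∧ ∀ μ, ℓ μ v = ℓ μ v₀}.Infinite := by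
  classical
  obtain ⟨V, hfin, hV, hℓ, h⟩ := h
  let e := Module.finBasis R V
  choose! s hs1 hs2 using h (Fin (Module.finrank R V)) e
  refine Set.infinite_of_injOn_mapsTo (f := fun r : R => v₀ + ∑ m, s r m • (e m : I → K))
    (s := Set.Ioi (0 : R)) ?_ (fun r hr => ⟨fun j => hs2 r hr j, fun μ => ?_⟩)
    (Set.Ioi_infinite 0)
  swap
  · have h1 : ∑ m, s r m • (e m : I → K) ∈ V :=
      Submodule.sum_mem _ fun m _ => Submodule.smul_mem _ _ (e m).2
    rw [map_add, hℓ _ h1 μ, add_zero]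
  intro r hr r' hr' hrr
  have h1 : ∑ m, s r m • (e m : I → K) = ∑ m, s r' m • (e m : I → K) := add_left_cancel hrr
  have h2 : ∑ m, (s r m - s r' m) • e m = 0 := by
    apply Subtype.ext
    rw [Submodule.coe_sum]
    simp only [Submodule.coe_smul, sub_smul, Finset.sum_sub_distrib, Submodule.coe_zero]
    rw [h1, sub_self]
  have h3 := Fintype.linearIndependent_iff.1 e.linearIndependent _ h2
  rw [← hs1 r hr, ← hs1 r' hr']
  exact Finset.sum_congr rfl fun m _ => by rw [sub_eq_zero.mp (h3 m)]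

theorem assemble (hmin : SphereMin R) (hsq : ∀ x : R, 0 ≤ x → ∃ y, y ^ 2 = x) (Fl : Filt R K n)
    {I J : Type*} [Fintype I]
    [Fintype J] (w : I → ℕ) (hw : ∀ i, 0 < w i) (d : J → ℕ) (hd : ∀ j, 0 < d j)
    (hN : ∑ j, d j ^ n < ∑ i, w i ^ n) (f : J → MvPolynomial I K)
    (hf : ∀ j, ∀ α ∈ (f j).support, Finsupp.weight w α ≤ d j)
    (hc : ∀ j α, (f j).coeff α ∈ Fl.A Fl.c) (hf0 : ∀ j, MvPolynomial.eval 0 (f j) = 0)
    {q : ℕ} (h : Fin q → K) (hh : ∀ l, h l ∈ Fl.A Fl.c) (hh0 : ∃ l, h l ≠ 0)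
    (hh2 : ∑ l, h l ^ 2 = 0) {M : ℕ} (hM : n = 0 → M = 0) (ℓ : Fin M → (I → K) →ₗ[R] R) :
    OnEllipsoids R f 0 ℓ := by
  classical
  obtain ⟨k0, hk0⟩ := exists_level' n (4 * Fl.c) (q * M) (fun h0 => by rw [hM h0, mul_zero]) w d hN
  set k := k0 + 2 * Fl.c with hk
  have hfin : ∀ l, FiniteDimensional R (Fl.A l) := Fl.fin
  let V : Submodule R (I → K) :=
    Submodule.pi Set.univ (fun i => Fl.A (w i * k)) ⊓ ⨅ μ, LinearMap.ker (ℓ μ)
  have hVmem : ∀ y : I → K, y ∈ V ↔ (∀ i, y i ∈ Fl.A (w i * k)) ∧ ∀ μ, ℓ μ y = 0 := by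
    intro y
    simp [V, Submodule.mem_pi, Submodule.mem_iInf]
  have hVfin : FiniteDimensional R V := by
    let φ : V →ₗ[R] (∀ i : I, Fl.A (w i * k)) :=
      { toFun := fun v i => ⟨v.1 i, ((hVmem v.1).1 v.2).1 i⟩
        map_add' := fun _ _ => rfl
        map_smul' := fun _ _ => rfl }
    refine Module.Finite.of_injective φ ?_
    intro v v' hvv
    apply Subtype.ext
    funext i
    exact congrArg Subtype.val (congrFun hvv i)
  -- the directions
  have hle : ∀ i, w i * k0 ≤ w i * k := fun i => Nat.mul_le_mul_left _ (by omega)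
  have hdirs : ∀ a : I → K, (∀ i, a i ∈ Fl.A (w i * k)) → ∃ z : I → K, z ≠ 0 ∧
      (∀ j, ∑ i, MvPolynomial.eval a (MvPolynomial.pderiv i (f j)) * z i = 0) ∧
      ∀ l, (fun i => h l * z i) ∈ V := by
    intro a haA
    have hlin : ∀ (z : I → K) (j : J), (∀ i, z i ∈ Fl.A (w i * k0)) →
        ∑ i, MvPolynomial.eval a (MvPolynomial.pderiv i (f j)) * z i ∈
          Fl.A (d j * (k0 + 4 * Fl.c)) := by
      intro z j hz
      rw [← kline_coeff_one]
      have h1 := coeffIn_kline_le Fl w hw k a z haA (fun i => Fl.mono (hle i) (hz i)) (f j) (d j)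
        (hf j) (hc j) 1
      refine Fl.mono ?_ h1
      have := hd j
      rw [hk]
      nlinarith [Nat.mul_le_mul_right Fl.c this]
    let Λ : (∀ i : I, Fl.A (w i * k0)) →ₗ[R]
        (∀ j : J, Fl.A (d j * (k0 + 4 * Fl.c))) × (Fin q → Fin M → R) :=
      { toFun := fun z => (fun j =>
          ⟨∑ i, MvPolynomial.eval a (MvPolynomial.pderiv i (f j)) * (z i : K),
            hlin (fun i => (z i : K)) j fun i => (z i).2⟩,
          fun l μ => ℓ μ (fun i => h l * (z i : K)))
        map_add' := by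
          intro x y
          refine Prod.ext ?_ ?_
          · funext j
            apply Subtype.ext
            simp [mul_add, Finset.sum_add_distrib]
          · funext l μ
            simp only [Prod.snd_add, Pi.add_apply]
            rw [← map_add]
            congr 1
            funext i
            simp [mul_add]
        map_smul' := by
          intro r x
          refine Prod.ext ?_ ?_
          · funext j
            apply Subtype.ext
            simp [Finset.smul_sum]
          · funext l μ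
            simp only [Prod.smul_snd, Pi.smul_apply, RingHom.id_apply]
            rw [← map_smul]
            congr 1
            funext i
            simp }
    have hrank : Module.finrank R ((∀ j : J, Fl.A (d j * (k0 + 4 * Fl.c))) ×
        (Fin q → Fin M → R)) < Module.finrank R (∀ i : I, Fl.A (w i * k0)) := by
      have h1 : Module.finrank R (Fin q → Fin M → R) = q * M := by
        rw [Module.finrank_pi_fintype]
        simp
      rw [Module.finrank_prod, h1, Module.finrank_pi_fintype, Module.finrank_pi_fintype]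
      simp only [Fl.rank]
      rw [← Finset.mul_sum, ← Finset.mul_sum]
      have h2 := Nat.mul_lt_mul_of_pos_left hk0 Fl.hD
      have h3 : q * M ≤ Fl.D * (q * M) := Nat.le_mul_of_pos_left _ Fl.hD
      rw [mul_add] at h2
      omega
    have hker : LinearMap.ker Λ ≠ ⊥ := LinearMap.ker_ne_bot_of_finrank_lt hrank
    obtain ⟨z, hz, hz0⟩ := Submodule.exists_mem_ne_zero_of_ne_bot hker
    have hΛ : Λ z = 0 := hz
    refine ⟨fun i => (z i : K), ?_, fun j => ?_, fun l => (hVmem _).2 ⟨fun i => ?_, fun μ => ?_⟩⟩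
    · intro h0
      apply hz0
      funext i
      exact Subtype.ext (congrFun h0 i)
    · exact congrArg Subtype.val (congrFun (congrArg Prod.fst hΛ) j)
    · refine Fl.mono ?_ (Fl.mul _ _ _ _ (hh l) (z i).2)
      have := hw i
      rw [hk]
      nlinarith [Nat.mul_le_mul_right Fl.c this]
    · exact congrFun (congrFun (congrArg Prod.snd hΛ) l) μ
  have hVne : V ≠ ⊥ := by
    obtain ⟨z, hz0, -, hzV⟩ := hdirs 0 (fun i => Submodule.zero_mem _)
    obtain ⟨l, hl⟩ := hh0
    intro h0
    have h1 := hzV l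
    rw [h0, Submodule.mem_bot] at h1
    apply hz0
    funext i
    exact (mul_eq_zero.1 (congrFun h1 i)).resolve_left hl
  refine ⟨V, hVfin, hVne, fun v hv => ((hVmem v).1 hv).2, fun ι _ e r₀ hr₀ => ?_⟩
  obtain ⟨r', hr'⟩ := hsq r₀ hr₀.le
  obtain ⟨r, hr, hrr⟩ : ∃ r : R, 0 < r ∧ r ^ 2 = r₀ := by
    refine ⟨|r'|, abs_pos.mpr ?_, by rw [sq_abs, hr']⟩
    rintro rfl
    rw [← hr'] at hr₀
    simp at hr₀
  have : Nontrivial V := by
    rw [Submodule.nontrivial_iff_ne_bot]
    exact hVne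
  have : Nonempty ι := e.index_nonempty
  -- the matrix of the coordinates
  let E' : I → ι → K := fun i m => r • (e m : I → K) i
  have hE' : ∀ s : ι → R, (fun i => ∑ m, s m • E' i m) = ∑ m, (r * s m) • (e m : I → K) := by
    intro s
    funext i
    rw [Finset.sum_apply]
    refine Finset.sum_congr rfl fun m _ => ?_
    simp only [E']
    rw [smul_smul, mul_comm, Pi.smul_apply]
  have hmem : ∀ s : ι → R, ∀ i, ∑ m, s m • E' i m ∈ Fl.A (w i * k) := by
    intro s i
    have h1 : (∑ m, (r * s m) • e m : V).1 = ∑ m, (r * s m) • (e m : I → K) := by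
      rw [Submodule.coe_sum]
      rfl
    have h2 := ((hVmem _).1 (∑ m, (r * s m) • e m : V).2).1 i
    rw [h1, ← hE' s] at h2
    exact h2
  have hsurj : ∀ y : I → K, y ∈ V → ∃ ρ : ι → R,
      ∀ i, ∑ m, ρ m • E' i m = y i := by
    intro y hy
    refine ⟨fun m => r⁻¹ * e.repr ⟨y, hy⟩ m, fun i => ?_⟩
    have h1 := congrFun (hE' fun m => r⁻¹ * e.repr ⟨y, hy⟩ m) i
    refine Eq.trans h1 ?_
    have h2 : ∀ m, r * (r⁻¹ * e.repr ⟨y, hy⟩ m) = e.repr ⟨y, hy⟩ m :=
      fun m => by rw [← mul_assoc, mul_inv_cancel₀ hr.ne', one_mul]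
    simp only [h2]
    have h3 := congrArg Subtype.val (e.sum_repr ⟨y, hy⟩)
    rw [Submodule.coe_sum] at h3
    exact congrFun h3 i
  let g : J → MvPolynomial ι K := fun j =>
    MvPolynomial.aeval (fun i => ∑ m, MvPolynomial.C (E' i m) * MvPolynomial.X m) (f j)
  suffices hmain : ∃ s : ι → R, ∑ m, s m ^ 2 = 1 ∧
      ∀ j, MvPolynomial.eval (fun i => algebraMap R K (s i)) (g j) = 0 by
    obtain ⟨s, hs0, hs⟩ := hmain
    refine ⟨fun m => r * s m, ?_, fun j => ?_⟩
    · simp only [mul_pow]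
      rw [← Finset.mul_sum, hs0, mul_one, hrr]
    · rw [zero_add, ← hE', ← eval_compose]
      exact hs j
  refine engine (R := R) (A := K) hmin hsq (ι := ι) g ?_ ?_
  · intro j
    have h1 := eval_compose (R := R) (f j) E' (fun _ => 0)
    simp only [map_zero, zero_smul, Finset.sum_const_zero] at h1
    refine h1.trans (hf0 j)
  · -- the directions
    intro s
    set a : I → K := fun i => ∑ m, s m • E' i m with ha
    obtain ⟨z, hz0, hzj, hzV⟩ := hdirs a (fun i => hmem s i)
    choose ρ hρ using fun l => hsurj (fun i => h l * z i) (hzV l)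
    have hρ' : ∀ l, (fun i => ∑ m, ρ l m • E' i m) = fun i => h l * z i := fun l =>
      funext (hρ l)
    have hline : ∀ j l e, (line (g j) s (ρ l)).coeff e = (kline (f j) a z).coeff e * h l ^ e := by
      intro j l e
      rw [line_compose, hρ', kline_smul_coeff]
    refine ⟨q, ρ, ?_, fun j l => ?_, fun j => ?_⟩
    · obtain ⟨l, hl⟩ := hh0
      refine ⟨l, fun h0 => hz0 ?_⟩
      funext i
      have h1 := hρ l i
      rw [h0] at h1
      simp only [Pi.zero_apply, zero_smul, Finset.sum_const_zero] at h1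
      exact (mul_eq_zero.1 h1.symm).resolve_left hl
    · rw [hline, kline_coeff_one, hzj, zero_mul]
    · simp only [hline]
      rw [← Finset.mul_sum, hh2, mul_zero]

end

section Translate

variable {K : Type*} [Field K] {I : Type*}

/-- Polynomials of weighted degree at most `d`. -/
def LeW (w : I → ℕ) (d : ℕ) (p : MvPolynomial I K) : Prop :=
  ∀ α ∈ p.support, Finsupp.weight w α ≤ d

theorem LeW.mono {w : I → ℕ} {d e : ℕ} (hde : d ≤ e) {p : MvPolynomial I K} (hp : LeW w d p) :
    LeW w e p := fun α hα => (hp α hα).trans hde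

theorem leW_add {w : I → ℕ} {d : ℕ} {p q : MvPolynomial I K} (hp : LeW w d p) (hq : LeW w d q) :
    LeW w d (p + q) := by
  classical
  intro α hα
  rcases Finset.mem_union.mp (MvPolynomial.support_add hα) with h | h
  · exact hp α h
  · exact hq α h

theorem leW_mul {w : I → ℕ} {d e : ℕ} {p q : MvPolynomial I K} (hp : LeW w d p) (hq : LeW w e q) :
    LeW w (d + e) (p * q) := by
  classical
  intro α hα
  obtain ⟨β, hβ, γ, hγ, rfl⟩ := Finset.mem_add.mp (MvPolynomial.support_mul p q hα)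
  rw [map_add]
  exact Nat.add_le_add (hp β hβ) (hq γ hγ)

theorem leW_C {w : I → ℕ} (c : K) : LeW w 0 (MvPolynomial.C c : MvPolynomial I K) := by
  classical
  intro α hα
  rw [MvPolynomial.mem_support_iff, MvPolynomial.coeff_C] at hα
  by_cases h : 0 = α
  · subst h; simp
  · rw [if_neg h] at hα; exact absurd rfl hα

theorem leW_X {w : I → ℕ} (i : I) : LeW w (w i) (MvPolynomial.X i : MvPolynomial I K) := by
  classical
  intro α hα
  rw [MvPolynomial.mem_support_iff, MvPolynomial.coeff_X] at hα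
  by_cases h : Finsupp.single i 1 = α
  · subst h; simp [Finsupp.weight_single]
  · rw [if_neg h] at hα; exact absurd rfl hα

theorem leW_pow {w : I → ℕ} {d : ℕ} {p : MvPolynomial I K} (hp : LeW w d p) (e : ℕ) :
    LeW w (e * d) (p ^ e) := by
  induction e with
  | zero =>
    rw [pow_zero, ← MvPolynomial.C_1]
    exact (leW_C 1).mono (Nat.zero_le _)
  | succ e ih =>
    rw [pow_succ]
    exact (leW_mul ih hp).mono (by ring_nf; exact le_rfl)

theorem leW_prod {w : I → ℕ} (s : Finset I) (e : I → ℕ) (P : I → MvPolynomial I K)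
    (hP : ∀ i, LeW w (w i) (P i)) : LeW w (∑ i ∈ s, e i * w i) (∏ i ∈ s, P i ^ e i) := by
  classical
  induction s using Finset.induction_on with
  | empty =>
    rw [Finset.prod_empty, Finset.sum_empty, ← MvPolynomial.C_1]
    exact leW_C 1
  | insert a s ha ih =>
    rw [Finset.prod_insert ha, Finset.sum_insert ha]
    exact leW_mul (leW_pow (hP a) _) ih

theorem leW_sum {w : I → ℕ} {d : ℕ} {σ : Type*} (s : Finset σ) (P : σ → MvPolynomial I K)
    (hP : ∀ i ∈ s, LeW w d (P i)) : LeW w d (∑ i ∈ s, P i) := by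
  classical
  induction s using Finset.induction_on with
  | empty =>
    intro α hα
    simp at hα
  | insert a s ha ih =>
    rw [Finset.sum_insert ha]
    exact leW_add (hP a (Finset.mem_insert_self _ _))
      (ih fun i hi => hP i (Finset.mem_insert_of_mem hi))

/-- Translations do not raise the weighted degree. -/
theorem leW_translate {w : I → ℕ} {d : ℕ} {f : MvPolynomial I K} (hf : LeW w d f) (v₀ : I → K) :
    LeW w d (MvPolynomial.aeval (fun i => MvPolynomial.X i + MvPolynomial.C (v₀ i)) f) := by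
  rw [MvPolynomial.aeval_def, MvPolynomial.eval₂_eq]
  refine leW_sum _ _ fun α hα => ?_
  have h1 : LeW w (∑ i ∈ α.support, α i * w i)
      (∏ i ∈ α.support, (MvPolynomial.X i + MvPolynomial.C (v₀ i) : MvPolynomial I K) ^ α i) :=
    leW_prod _ _ _ fun i => leW_add (leW_X i) ((leW_C _).mono (Nat.zero_le _))
  have h2 := leW_mul (leW_C (w := w) (f.coeff α)) h1
  have h3 : ∑ i ∈ α.support, α i * w i = Finsupp.weight w α := by
    rw [Finsupp.weight_apply, Finsupp.sum]
    rfl
  rw [zero_add, h3] at h2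
  exact h2.mono (hf α hα)

end Translate

section Core

variable {R K : Type*} [Field R] [LinearOrder R] [IsStrictOrderedRing R] [Field K] [Algebra R K]
  {n : ℕ}

/-- **The strong form.** -/
theorem core (hmin : SphereMin R) (hsq : ∀ x : R, 0 ≤ x → ∃ y, y ^ 2 = x) {x : Fin n → K}
    (hx : IsTranscendenceBasis R x) {q : ℕ} (g : Fin q → K) (hg : ∑ l, g l ^ 2 = -1)
    {I J : Type*} [Fintype I] [Fintype J] (w : I → ℕ) (hw : ∀ i, 0 < w i) (d : J → ℕ)
    (hd : ∀ j, 0 < d j) (hN : ∑ j, d j ^ n < ∑ i, w i ^ n) (f : J → MvPolynomial I K)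
    (hf : ∀ j, ∀ α ∈ (f j).support, Finsupp.weight w α ≤ d j) (v₀ : I → K)
    (hv₀ : ∀ j, MvPolynomial.eval v₀ (f j) = 0) {M : ℕ} (hM : n = 0 → M = 0)
    (ℓ : Fin M → (I → K) →ₗ[R] R) : OnEllipsoids R f v₀ ℓ := by
  classical
  let h : Fin (q + 1) → K := Fin.cons 1 g
  have hh2 : ∑ l, h l ^ 2 = 0 := by
    rw [Fin.sum_univ_succ]
    simp [h, hg]
  let f' : J → MvPolynomial I K := fun j =>
    MvPolynomial.aeval (fun i => MvPolynomial.X i + MvPolynomial.C (v₀ i)) (f j)
  have hev : ∀ j v, MvPolynomial.eval v (f' j) = MvPolynomial.eval (v + v₀) (f j) := by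
    intro j v
    simp only [f']
    rw [← MvPolynomial.coe_aeval_eq_eval, ← MvPolynomial.coe_aeval_eq_eval]
    have h1 : (MvPolynomial.aeval v).comp
        (MvPolynomial.aeval (fun i => MvPolynomial.X i + MvPolynomial.C (v₀ i)) :
          MvPolynomial I K →ₐ[K] MvPolynomial I K) = MvPolynomial.aeval (v + v₀) := by
      apply MvPolynomial.algHom_ext
      intro i
      simp
    exact congrArg (fun φ : MvPolynomial I K →ₐ[K] K => φ (f j)) h1
  let S : Finset K := (Finset.univ.biUnion fun j => (f' j).support.image fun α => (f' j).coeff α) ∪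
    Finset.univ.image h
  obtain ⟨Fl, b, hb, hS⟩ := exists_filt hx S
  have h1 := assemble hmin hsq Fl w hw d hd hN (fun j => MvPolynomial.C b * f' j)
    (fun j => by
      have := leW_mul (leW_C (w := w) b) (leW_translate (hf j) v₀)
      rw [zero_add] at this
      exact this)
    (fun j α => by
      rw [MvPolynomial.coeff_C_mul]
      by_cases hα : α ∈ (f' j).support
      · refine hS _ (Finset.mem_union_left _ (Finset.mem_biUnion.2 ⟨j, Finset.mem_univ j, ?_⟩))
        exact Finset.mem_image_of_mem _ hα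
      · rw [MvPolynomial.notMem_support_iff.1 hα, mul_zero]
        exact Submodule.zero_mem _)
    (fun j => by
      rw [map_mul, hev, zero_add, hv₀, mul_zero])
    (fun l => b * h l)
    (fun l => hS _ (Finset.mem_union_right _ (Finset.mem_image_of_mem _ (Finset.mem_univ l))))
    ⟨0, by simpa [h] using hb⟩
    (by
      simp only [mul_pow]
      rw [← Finset.mul_sum, hh2, mul_zero]) hM ℓ
  obtain ⟨V, hV1, hV2, hV0, hV3⟩ := h1
  refine ⟨V, hV1, hV2, hV0, fun ι _ e r hr => ?_⟩
  obtain ⟨s, hs1, hs2⟩ := hV3 ι e r hr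
  refine ⟨s, hs1, fun j => ?_⟩
  have h2 := hs2 j
  rw [map_mul, MvPolynomial.eval_C] at h2
  have h3 := (mul_eq_zero.1 h2).resolve_left hb
  rw [hev, zero_add] at h3
  rw [add_comm]
  exact h3

end Core

end Pool.Agent.H57.Lang
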