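import Pool.Graph.R_pool_sql_team_seeded_620a6dc7.Helper716_Lang.Core

/-!
# Descent on a ball, without homogeneity

`g j` are polynomials with coefficients in an algebra `A` over the real closed field `R`, in
variables which take values in `R`, and which vanish at the origin. If at every point `s` there are
finitely many directions, not all zero, in which all `g j` have no first order term and in which the
second order terms add up to zero, then the `g j` have a common zero on the unit sphere.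
-/

set_option autoImplicit false

namespace Pool.Agent.H57.Lang

open Polynomial Pool.Agent.Helper716_Lang

section

variable {R : Type*} [Field R] [LinearOrder R] [IsStrictOrderedRing R]

/-- The second coefficient at a local minimum is nonnegative. -/
theorem second_nonneg (Θ : R[X]) (ε : R) (hε : 0 < ε)
    (h : ∀ t : R, |t| ≤ ε → Θ.coeff 0 ≤ Θ.eval t) : 0 ≤ Θ.coeff 2 := by
  by_contra hcon
  push Not at hcon
  set S := Θ.divX.divX.divX with hS
  have hΘ : Θ = C (Θ.coeff 0) + C (Θ.coeff 1) * X + C (Θ.coeff 2) * X ^ 2 + S * X ^ 3 := by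
    have h1 := Θ.divX_mul_X_add
    have h2 := Θ.divX.divX_mul_X_add
    have h3 := Θ.divX.divX.divX_mul_X_add
    have h4 : Θ.divX.coeff 0 = Θ.coeff 1 := by rw [coeff_divX]
    have h5 : Θ.divX.divX.coeff 0 = Θ.coeff 2 := by rw [coeff_divX, coeff_divX]
    rw [h4] at h2
    rw [h5] at h3
    conv_lhs => rw [← h1, ← h2, ← h3]
    rw [← hS]
    ring
  obtain ⟨C', hC0, hC⟩ := exists_bound S
  obtain ⟨t, ht0, ht1, htε, htC⟩ : ∃ t : R, 0 < t ∧ t ≤ 1 ∧ t ≤ ε ∧ t * C' < -Θ.coeff 2 := by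
    refine ⟨min (min 1 ε) (-Θ.coeff 2 / (C' + 1) / 2), ?_, ?_, ?_, ?_⟩
    · have : 0 < -Θ.coeff 2 / (C' + 1) / 2 := by
        apply div_pos (div_pos (by linarith) (by linarith)) (by norm_num)
      exact lt_min (lt_min one_pos hε) this
    · exact (min_le_left _ _).trans (min_le_left _ _)
    · exact (min_le_left _ _).trans (min_le_right _ _)
    · have h1 : min (min 1 ε) (-Θ.coeff 2 / (C' + 1) / 2) * C' ≤
          (-Θ.coeff 2 / (C' + 1) / 2) * C' := mul_le_mul_of_nonneg_right (min_le_right _ _) hC0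
      have h2 : (-Θ.coeff 2 / (C' + 1) / 2) * C' < -Θ.coeff 2 := by
        have h3 : 0 < -Θ.coeff 2 := by linarith
        have h4 : 0 < C' + 1 := by linarith
        rw [div_div, div_mul_eq_mul_div, div_lt_iff₀ (by positivity)]
        nlinarith
      linarith
  have hev : ∀ t : R, Θ.eval t = Θ.coeff 0 + Θ.coeff 1 * t + Θ.coeff 2 * t ^ 2 +
      S.eval t * t ^ 3 := by
    intro t
    conv_lhs => rw [hΘ]
    simp
  have h1 := h t (by rw [abs_of_pos ht0]; exact htε)
  have h2 := h (-t) (by rw [abs_neg, abs_of_pos ht0]; exact htε)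
  rw [hev] at h1 h2
  have h3 := (abs_le.mp (hC t (by rw [abs_of_pos ht0]; exact ht1))).2
  have h4 := (abs_le.mp (hC (-t) (by rw [abs_neg, abs_of_pos ht0]; exact ht1))).1
  have h5 : 0 < t ^ 2 := by positivity
  have h6 : 0 < t ^ 3 := by positivity
  have h7 : S.eval t * t ^ 3 ≤ C' * t ^ 3 := mul_le_mul_of_nonneg_right h3 h6.le
  have h8 : (-S.eval (-t)) * t ^ 3 ≤ C' * t ^ 3 := mul_le_mul_of_nonneg_right (by linarith) h6.le
  have h9 : 0 ≤ 2 * Θ.coeff 2 * t ^ 2 + 2 * (t * C') * t ^ 2 := by nlinarith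
  have h10 : 2 * Θ.coeff 2 * t ^ 2 + 2 * (t * C') * t ^ 2 = 2 * t ^ 2 * (Θ.coeff 2 + t * C') := by
    ring
  rw [h10] at h9
  have h11 : 0 ≤ Θ.coeff 2 + t * C' := nonneg_of_mul_nonneg_right h9 (by positivity)
  linarith

/-- Minima on the ball. -/
theorem ballMin (hmin : SphereMin R) (hsq : ∀ x : R, 0 ≤ x → ∃ y, y ^ 2 = x) {ι : Type*}
    [Fintype ι] (p : MvPolynomial ι R) : ∃ s : ι → R, ∑ i, s i ^ 2 ≤ 1 ∧
    ∀ v : ι → R, ∑ i, v i ^ 2 ≤ 1 → MvPolynomial.eval s p ≤ MvPolynomial.eval v p := by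
  classical
  obtain ⟨s, hs, hsmin⟩ := hmin.fintype (ι := Option ι) (MvPolynomial.rename some p)
  rw [Fintype.sum_option] at hs
  refine ⟨s ∘ some, ?_, fun v hv => ?_⟩
  · have := sq_nonneg (s none)
    simp only [Function.comp]
    linarith
  · obtain ⟨y, hy⟩ := hsq (1 - ∑ i, v i ^ 2) (by linarith)
    have h1 := hsmin (fun o => o.elim y v) (by
      rw [Fintype.sum_option]
      simp only [Option.elim]
      rw [hy]
      ring)
    rw [MvPolynomial.eval_rename, MvPolynomial.eval_rename] at h1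
    exact h1

end

section

variable {R A : Type*} [Field R] [LinearOrder R] [IsStrictOrderedRing R] [CommRing A]
  [Algebra R A] {ι : Type*}

/-- **The descent on the ball.** -/
theorem engine (hmin : SphereMin R) (hsq : ∀ x : R, 0 ≤ x → ∃ y, y ^ 2 = x) [Fintype ι]
    [Nonempty ι] {J : Type*} [Fintype J] (g : J → MvPolynomial ι A)
    (hg0 : ∀ j, MvPolynomial.eval (fun _ => 0) (g j) = 0)
    (H : ∀ s : ι → R, ∃ (q : ℕ) (ρ : Fin q → ι → R), (∃ k, ρ k ≠ 0) ∧
      (∀ j k, (line (g j) s (ρ k)).coeff 1 = 0) ∧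
      ∀ j, ∑ k, (line (g j) s (ρ k)).coeff 2 = 0) :
    ∃ s : ι → R, ∑ i, s i ^ 2 = 1 ∧
      ∀ j, MvPolynomial.eval (fun i => algebraMap R A (s i)) (g j) = 0 := by
  classical
  obtain ⟨B, hB, hBpos⟩ := exists_form R A
  have hB0 : ∀ x, 0 ≤ B x x := fun x => by
    rcases eq_or_ne x 0 with rfl | hx
    · simp
    · exact (hBpos x hx).le
  choose F hF using fun j => exists_normPoly B (g j)
  set ev : J → (ι → R) → A := fun j s => MvPolynomial.eval (fun i => algebraMap R A (s i)) (g j)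
    with hev
  have hNF : ∀ v, MvPolynomial.eval v (∑ j, F j) = ∑ j, B (ev j v) (ev j v) := by
    intro v
    rw [map_sum]
    exact Finset.sum_congr rfl fun j _ => hF j v
  obtain ⟨s₁, hs₁, hs₁min⟩ := hmin.fintype (∑ j, F j)
  simp only [hNF] at hs₁min
  set m := ∑ j, B (ev j s₁) (ev j s₁) with hm
  have hm0 : 0 ≤ m := Finset.sum_nonneg fun j _ => hB0 _
  rcases hm0.eq_or_lt with hm1 | hm1
  · refine ⟨s₁, hs₁, fun j => ?_⟩
    by_contra hne
    have h1 : 0 < m := Finset.sum_pos' (fun j _ => hB0 _) ⟨j, Finset.mem_univ j, hBpos _ hne⟩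
    exact absurd h1 (by rw [← hm1]; exact lt_irrefl _)
  exfalso
  set lam : R := m / 2 with hlam
  have hlam0 : 0 < lam := by rw [hlam]; linarith
  let Q : MvPolynomial ι R := ∑ j, F j - MvPolynomial.C lam * ∑ i, MvPolynomial.X i ^ 2
  have hQ : ∀ v, MvPolynomial.eval v Q = ∑ j, B (ev j v) (ev j v) - lam * ∑ i, v i ^ 2 := by
    intro v
    simp only [Q]
    rw [map_sub, hNF, map_mul, MvPolynomial.eval_C, map_sum]
    simp only [map_pow, MvPolynomial.eval_X]
  obtain ⟨s, hs, hsmin⟩ := ballMin hmin hsq Q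
  simp only [hQ] at hsmin
  have hev0 : ∀ j, ev j 0 = 0 := by
    intro j
    simp only [hev, Pi.zero_apply, map_zero]
    exact hg0 j
  have hs0 : ∑ j, B (ev j s) (ev j s) - lam * ∑ i, s i ^ 2 ≤ 0 := by
    have h1 := hsmin 0 (by simp)
    simp only [hev0] at h1
    simpa using h1
  have hslt : ∑ i, s i ^ 2 < 1 := by
    rcases hs.lt_or_eq with h1 | h1
    · exact h1
    · exfalso
      have h2 := hs₁min s h1
      rw [h1, mul_one] at hs0
      linarith
  obtain ⟨q, ρ, ⟨k0, hk0⟩, hρ1, hρ2⟩ := H s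
  have hdir : ∀ k : Fin q, lam * ∑ i, ρ k i ^ 2 ≤
      2 * ∑ j, B (ev j s) ((line (g j) s (ρ k)).coeff 2) := by
    intro k
    choose Φ hΦ hΦ0 hΦ1 hΦ2 using fun j => exists_normPath B hB (line (g j) s (ρ k))
    have h2 : (∑ j, Φ j).coeff 2 = 2 * ∑ j, B (ev j s) ((line (g j) s (ρ k)).coeff 2) := by
      rw [finsetSum_coeff, Finset.mul_sum]
      refine Finset.sum_congr rfl fun j _ => ?_
      rw [hΦ2, hρ1, line_coeff_zero]
      simp [hev]
    set b := ∑ i, s i * ρ k i with hb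
    set γ := ∑ i, ρ k i ^ 2 with hγ
    have hγ0 : 0 ≤ γ := Finset.sum_nonneg fun i _ => sq_nonneg _
    set Θ : R[X] := (∑ j, Φ j) - (C (lam * ∑ i, s i ^ 2) + C (lam * (2 * b)) * X +
      C (lam * γ) * X ^ 2) with hΘ
    have h3 : ∀ t : R, ∑ i, (s i + t * ρ k i) ^ 2 = ∑ i, s i ^ 2 + 2 * (t * b) + t ^ 2 * γ := by
      intro t
      rw [hb, hγ, Finset.mul_sum, Finset.mul_sum, Finset.mul_sum, ← Finset.sum_add_distrib,
        ← Finset.sum_add_distrib]
      exact Finset.sum_congr rfl fun i _ => by ring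
    have hΘev : ∀ t : R, Θ.eval t = ∑ j, B (ev j fun i => s i + t * ρ k i)
        (ev j fun i => s i + t * ρ k i) - lam * ∑ i, (s i + t * ρ k i) ^ 2 := by
      intro t
      rw [hΘ, eval_sub, eval_finsetSum, h3]
      simp only [eval_add, eval_mul, eval_C, eval_X, eval_pow]
      have h4 : ∀ j, (Φ j).eval t = B (ev j fun i => s i + t * ρ k i)
          (ev j fun i => s i + t * ρ k i) := by
        intro j
        rw [hΦ, line_eval]
      simp only [h4]
      ring
    have hΘ0 : Θ.coeff 0 = ∑ j, B (ev j s) (ev j s) - lam * ∑ i, s i ^ 2 := by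
      rw [coeff_zero_eq_eval_zero, hΘev]
      simp
    have hΘ2 : Θ.coeff 2 = 2 * ∑ j, B (ev j s) ((line (g j) s (ρ k)).coeff 2) - lam * γ := by
      rw [hΘ, coeff_sub, h2]
      congr 1
      rw [coeff_add, coeff_add, coeff_C, coeff_C_mul_X, coeff_C_mul_X_pow]
      norm_num
    -- a small radius
    set δ := 1 - ∑ i, s i ^ 2 with hδ
    have hδ0 : 0 < δ := by rw [hδ]; linarith
    have hrad : ∃ ε : R, 0 < ε ∧ ∀ t : R, |t| ≤ ε → ∑ i, (s i + t * ρ k i) ^ 2 ≤ 1 := by
      refine ⟨min 1 (δ / (2 * |b| + γ + 1)), lt_min one_pos (by positivity), fun t ht => ?_⟩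
      have h5 : |t| ≤ 1 := ht.trans (min_le_left _ _)
      have h6 : |t| * (2 * |b| + γ + 1) ≤ δ := by
        have := ht.trans (min_le_right _ _)
        rwa [le_div_iff₀ (by positivity)] at this
      rw [h3]
      have h7 : 2 * (t * b) ≤ |t| * (2 * |b|) := by
        have : t * b ≤ |t| * |b| := by rw [← abs_mul]; exact le_abs_self _
        linarith
      have h8 : t ^ 2 * γ ≤ |t| * γ := by
        refine mul_le_mul_of_nonneg_right ?_ hγ0
        rw [← sq_abs]
        nlinarith [abs_nonneg t]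
      have h9 := abs_nonneg t
      rw [hδ] at h6
      nlinarith
    obtain ⟨ε, hε, hball⟩ := hrad
    have h10 := second_nonneg Θ ε hε (fun t ht => by
      rw [hΘ0, hΘev]
      exact hsmin _ (hball t ht))
    rw [hΘ2] at h10
    linarith
  have hsum : ∑ k, (lam * ∑ i, ρ k i ^ 2) ≤ 0 := by
    refine (Finset.sum_le_sum fun k _ => hdir k).trans (le_of_eq ?_)
    rw [← Finset.mul_sum, Finset.sum_comm]
    have : ∀ j, ∑ k, B (ev j s) ((line (g j) s (ρ k)).coeff 2) = 0 := by
      intro j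
      rw [← map_sum, hρ2, map_zero]
    simp [this]
  have hpos : 0 < ∑ k, (lam * ∑ i, ρ k i ^ 2) := by
    refine Finset.sum_pos' (fun k _ => mul_nonneg hlam0.le (Finset.sum_nonneg fun i _ =>
      sq_nonneg _)) ⟨k0, Finset.mem_univ k0, mul_pos hlam0 ?_⟩
    obtain ⟨i, hi⟩ : ∃ i, ρ k0 i ≠ 0 := by
      by_contra hcon
      push Not at hcon
      exact hk0 (funext hcon)
    exact Finset.sum_pos' (fun i _ => sq_nonneg _) ⟨i, Finset.mem_univ i, by positivity⟩
  exact absurd hsum (not_le.2 hpos)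

end

end Pool.Agent.H57.Lang
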